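import Pool.Agent.helper36.UT.Spec

/-! # Project UT, row LGD: every level is good -/

set_option autoImplicit false

open Filter Polynomial FirstOrder FirstOrder.Language

namespace Pool.Agent.UnivT

theorem LGD_big (e : ℕ → ℤ) (he : Tendsto e atTop atTop) (δ b : ℚ) (hδ : 0 < δ) :
    ∀ᶠ H : ℕ in atTop, b ≤ δ * (2 : ℚ) ^ (e H) := by
  obtain ⟨n, hn⟩ := pow_unbounded_of_one_lt (b / δ) (one_lt_two : (1 : ℚ) < 2)
  filter_upwards [he.eventually (eventually_ge_atTop (n : ℤ))] with H hH
  have h1 : (2 : ℚ) ^ n ≤ 2 ^ (e H) := by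
    rw [← zpow_natCast]
    exact zpow_le_zpow_right₀ one_le_two hH
  rw [div_lt_iff₀ hδ] at hn
  nlinarith

theorem LGD_small (e : ℕ → ℤ) (he : Tendsto e atTop atBot) (δ : ℚ) :
    ∀ᶠ H : ℕ in atTop, δ * (2 : ℚ) ^ (e H) < 1 := by
  obtain ⟨n, hn⟩ := pow_unbounded_of_one_lt |δ| (one_lt_two : (1 : ℚ) < 2)
  filter_upwards [he.eventually (eventually_le_atBot (-(n : ℤ)))] with H hH
  have h1 : (2 : ℚ) ^ (e H) ≤ 2 ^ (-(n : ℤ)) := zpow_le_zpow_right₀ one_le_two hH
  rw [zpow_neg, zpow_natCast] at h1
  have h2 : (0 : ℚ) < 2 ^ n := by positivity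
  have h3 : (0 : ℚ) < 2 ^ (e H) := by positivity
  calc δ * (2 : ℚ) ^ (e H) ≤ |δ| * 2 ^ (e H) := mul_le_mul_of_nonneg_right (le_abs_self δ) h3.le
    _ ≤ |δ| * (2 ^ n)⁻¹ := mul_le_mul_of_nonneg_left h1 (abs_nonneg δ)
    _ < 1 := by
      rw [← div_eq_mul_inv, div_lt_one h2]
      exact hn

theorem LGD_neg (l : List (ℚ × (ℕ → ℤ))) (H : ℕ) :
    ev (l.map fun x => (-x.1, x.2)) H = -ev l H := by
  induction l with
  | nil => simp [ev_nil]
  | cons x l ih =>
    rw [List.map_cons, ev_cons, ev_cons, ih]
    ring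

theorem LGD (hLTR : LTR_stmt) (hNRM : NRM_stmt) (hDOM : DOM_stmt) : LGD_stmt := by
  intro k
  induction k with
  | zero => exact hLTR
  | succ k ih =>
    refine ⟨?_, ?_, ?_, ?_⟩
    · intro c
      refine ⟨[((c : ℚ), fun _ => 0)], ?_, Eventually.of_forall fun H => ?_⟩
      · intro x hx
        rw [List.mem_singleton] at hx
        rw [hx]
        exact ih.1 0
      · rw [ev_cons, ev_nil, zpow_zero, mul_one, add_zero]
    · rintro f g ⟨l, hl, hf⟩ ⟨m, hm, hg⟩
      refine ⟨l ++ m.map (fun x => (-x.1, x.2)), ?_, ?_⟩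
      · intro x hx
        rcases List.mem_append.mp hx with h | h
        · exact hl x h
        · obtain ⟨y, hy, rfl⟩ := List.mem_map.mp h
          exact hm y hy
      · filter_upwards [hf, hg] with H h1 h2
        rw [ev_append, LGD_neg, ← h1, ← h2]
        push_cast
        ring
    · rintro f g ⟨l, hl, hf⟩ h
      refine ⟨l, hl, ?_⟩
      filter_upwards [hf, h] with H h1 h2
      rw [← h2, h1]
    · rintro f ⟨l, hl, hf⟩
      obtain ⟨l', hnf, hex, hev⟩ := hNRM (Lev k) ih l hl
      have hf' : ∀ᶠ H : ℕ in atTop, (f H : ℚ) = ev l' H := by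
        filter_upwards [hf, hev] with H h1 h2
        rw [h1, h2]
      rcases l' with _ | ⟨x, m⟩
      · left
        refine ⟨0, ?_⟩
        filter_upwards [hf'] with H h1
        rw [ev_nil] at h1
        exact_mod_cast h1
      · have hx0 : x.1 ≠ 0 := hnf.2 x List.mem_cons_self
        have hfar : ∀ y ∈ m, Far x y := (List.pairwise_cons.mp hnf.1).1
        have hxL : Lev k x.2 := by
          obtain ⟨y, hy, hyx⟩ := hex x List.mem_cons_self
          rw [hyx]
          exact hl y hy
        have habs : 0 < |x.1| := abs_pos.mpr hx0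
        have hd := hDOM x m hfar (|x.1| / 2) (by positivity)
        have hmain : ∀ᶠ H : ℕ in atTop, |(f H : ℚ) - x.1 * (2 : ℚ) ^ (x.2 H)| ≤
            |x.1| / 2 * (2 : ℚ) ^ (x.2 H) := by
          filter_upwards [hf', hd] with H h1 h2
          rw [h1, ev_cons, add_sub_cancel_left]
          exact h2
        rcases ih.2.2.2 x.2 hxL with ⟨c, hc⟩ | h | h
        · left
          have h2c : (0 : ℚ) < 2 ^ c := by positivity
          have hd2 := hDOM x m hfar (1 / (4 * 2 ^ c)) (by positivity)
          have h5 : ∀ᶠ H : ℕ in atTop, |(f H : ℚ) - x.1 * (2 : ℚ) ^ c| ≤ 1 / 4 := by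
            filter_upwards [hf', hd2, hc] with H h1 h2 h3
            rw [h3] at h2
            rw [h1, ev_cons, h3, add_sub_cancel_left]
            refine h2.trans (le_of_eq ?_)
            field_simp
          obtain ⟨H0, hH0⟩ := eventually_atTop.mp h5
          refine ⟨f H0, eventually_atTop.mpr ⟨H0, fun H hH => ?_⟩⟩
          have h6 := abs_le.mp (hH0 H hH)
          have h7 := abs_le.mp (hH0 H0 le_rfl)
          have h8 : (f H : ℚ) < f H0 + 1 := by linarith [h6.2, h7.1]
          have h9 : (f H0 : ℚ) < f H + 1 := by linarith [h6.1, h7.2]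
          have h10 : f H < f H0 + 1 := by exact_mod_cast h8
          have h11 : f H0 < f H + 1 := by exact_mod_cast h9
          omega
        · right
          rcases lt_or_gt_of_ne hx0 with hneg | hpos
          · right
            rw [tendsto_atBot]
            intro b
            filter_upwards [hmain, LGD_big x.2 h (|x.1| / 2) (-b) (by positivity)] with H h1 h2
            have h3 := (abs_le.mp h1).2
            rw [abs_of_neg hneg] at h2 h3
            have h4 : (f H : ℚ) ≤ b := by linarith
            exact_mod_cast h4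
          · left
            rw [tendsto_atTop]
            intro b
            filter_upwards [hmain, LGD_big x.2 h (|x.1| / 2) b (by positivity)] with H h1 h2
            have h3 := (abs_le.mp h1).1
            rw [abs_of_pos hpos] at h2 h3
            have h4 : (b : ℚ) ≤ f H := by linarith
            exact_mod_cast h4
        · left
          refine ⟨0, ?_⟩
          filter_upwards [hmain, LGD_small x.2 h (3 / 2 * |x.1|)] with H h1 h2
          have h3 := abs_le.mp h1
          have h4 : (0 : ℚ) < 2 ^ (x.2 H) := by positivity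
          have h5 : |x.1 * (2 : ℚ) ^ (x.2 H)| = |x.1| * 2 ^ (x.2 H) := by
            rw [abs_mul, abs_of_pos h4]
          have h6 := abs_le.mp h5.le
          have h7 : (f H : ℚ) < 1 := by linarith [h3.2, h6.2]
          have h8 : (-1 : ℚ) < f H := by linarith [h3.1, h6.1]
          have h9 : f H < 1 := by exact_mod_cast h7
          have h10 : -1 < f H := by exact_mod_cast h8
          omega

end Pool.Agent.UnivT
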