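import Pool.Agent.helper36.UT.Spec

/-! # Project UT, row MDL: all functions of the levels are eventually constant modulo every `c` -/

set_option autoImplicit false

open Filter Polynomial FirstOrder FirstOrder.Language

namespace Pool.Agent.UnivT

/-- eventually constant modulo every `c` -/
def MDL_P (g : ℕ → ℤ) : Prop := ∀ c : ℕ, 0 < c → ∃ r : ℤ, ∀ᶠ H : ℕ in atTop, g H % c = r

/-- rational multiples -/
def MDL_Q (F : ℕ → ℚ) : Prop :=
  ∃ (N : ℕ) (g : ℕ → ℤ), 0 < N ∧ MDL_P g ∧ ∀ᶠ H : ℕ in atTop, (N : ℚ) * F H = g H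

theorem MDL_Pconst (a : ℤ) : MDL_P fun _ => a := fun c _ => ⟨a % c, Eventually.of_forall fun _ => rfl⟩

theorem MDL_Padd {f g : ℕ → ℤ} (hf : MDL_P f) (hg : MDL_P g) : MDL_P fun H => f H + g H := by
  intro c hc
  obtain ⟨r, hr⟩ := hf c hc
  obtain ⟨s, hs⟩ := hg c hc
  refine ⟨(r + s) % c, ?_⟩
  filter_upwards [hr, hs] with H h1 h2
  rw [Int.add_emod, h1, h2]

theorem MDL_Pmul {g : ℕ → ℤ} (a : ℤ) (hg : MDL_P g) : MDL_P fun H => a * g H := by
  intro c hc
  obtain ⟨s, hs⟩ := hg c hc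
  refine ⟨(a % c * s) % c, ?_⟩
  filter_upwards [hs] with H h2
  rw [Int.mul_emod, h2]

theorem MDL_Qcongr {F G : ℕ → ℚ} (hF : MDL_Q F) (h : ∀ᶠ H : ℕ in atTop, F H = G H) : MDL_Q G := by
  obtain ⟨N, g, hN, hg, hH⟩ := hF
  refine ⟨N, g, hN, hg, ?_⟩
  filter_upwards [h, hH] with H h1 h2
  rw [← h1, h2]

theorem MDL_Qint {g : ℕ → ℤ} (hg : MDL_P g) : MDL_Q fun H => (g H : ℚ) :=
  ⟨1, g, one_pos, hg, Eventually.of_forall fun H => by simp⟩

theorem MDL_Qadd {F G : ℕ → ℚ} (hF : MDL_Q F) (hG : MDL_Q G) : MDL_Q fun H => F H + G H := by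
  obtain ⟨N, f, hN, hf, h1⟩ := hF
  obtain ⟨M, g, hM, hg, h2⟩ := hG
  refine ⟨N * M, fun H => (M : ℤ) * f H + (N : ℤ) * g H, Nat.mul_pos hN hM,
    MDL_Padd (MDL_Pmul _ hf) (MDL_Pmul _ hg), ?_⟩
  filter_upwards [h1, h2] with H h3 h4
  push_cast
  rw [← h3, ← h4]
  ring

theorem MDL_Qmul {F : ℕ → ℚ} (q : ℚ) (hF : MDL_Q F) : MDL_Q fun H => q * F H := by
  obtain ⟨N, f, hN, hf, h1⟩ := hF
  refine ⟨q.den * N, fun H => q.num * f H, Nat.mul_pos q.den_pos hN, MDL_Pmul _ hf, ?_⟩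
  filter_upwards [h1] with H h3
  push_cast
  rw [← h3]
  have h4 : (q.den : ℚ) * q = q.num := Rat.den_mul_eq_num q
  rw [← h4]
  ring

theorem MDL_Qconst (q : ℚ) : MDL_Q fun _ => q :=
  MDL_Qcongr (MDL_Qmul q (MDL_Qint (MDL_Pconst 1))) (Eventually.of_forall fun _ => by simp)

theorem MDL_Qsum (n : ℕ) (F : ℕ → ℕ → ℚ) (h : ∀ i, MDL_Q (F i)) :
    MDL_Q fun H => ∑ i ∈ Finset.range n, F i H := by
  induction n with
  | zero => exact MDL_Qcongr (MDL_Qconst 0) (Eventually.of_forall fun _ => by simp)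
  | succ n ih =>
    exact MDL_Qcongr (MDL_Qadd ih (h n)) (Eventually.of_forall fun _ => by rw [Finset.sum_range_succ])

theorem MDL_fin {f : ℕ → ℤ} (h : MDL_Q fun H => (f H : ℚ)) : MDL_P f := by
  obtain ⟨N, g, hN, hg, h1⟩ := h
  intro c hc
  obtain ⟨r, hr⟩ := hg (N * c) (Nat.mul_pos hN hc)
  refine ⟨r / N, ?_⟩
  filter_upwards [h1, hr] with H h2 h3
  have h4 : (N : ℤ) * f H = g H := by exact_mod_cast h2
  rw [← h4] at h3
  push_cast at h3
  have hN' : (0 : ℤ) < N := by exact_mod_cast hN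
  rw [Int.mul_emod_mul_of_pos _ _ hN'] at h3
  rw [← h3, Int.mul_ediv_cancel_left _ hN'.ne']

theorem MDL (hTWM : TWM_stmt) (hPWM : PWM_stmt) (hSTD : STD_stmt) : MDL_stmt := by
  intro k
  induction k with
  | zero =>
    intro f hf
    obtain ⟨a, n, b, hH⟩ := hf
    refine MDL_fin (MDL_Qcongr (MDL_Qadd (MDL_Qconst a) (MDL_Qsum n (fun i H => b i * (tow (H - i) : ℚ)) ?_)) ?_)
    · intro i
      have h1 : MDL_P fun H => ((tow (H - i) : ℕ) : ℤ) := by
        intro c hc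
        obtain ⟨r, hr⟩ := hTWM c hc
        refine ⟨r, ?_⟩
        filter_upwards [(tendsto_sub_atTop_nat i).eventually hr] with H h2
        rw [← h2]
        push_cast
        rfl
      exact MDL_Qcongr (MDL_Qmul (b i) (MDL_Qint h1)) (Eventually.of_forall fun H => by simp)
    · filter_upwards [hH] with H h1
      exact h1.symm
  | succ k ih =>
    intro f hf
    obtain ⟨q, l, hl, hpw, hH⟩ := hSTD k f hf
    have h1 : MDL_Q fun H => ev l H := by
      clear hH hpw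
      induction l with
      | nil => exact MDL_Qcongr (MDL_Qconst 0) (Eventually.of_forall fun H => (ev_nil H).symm)
      | cons x l ihl =>
        obtain ⟨hx1, _, hx3⟩ := hl x (List.mem_cons_self)
        have h2 : MDL_P fun H => (2 : ℤ) ^ (x.2 H).toNat := hPWM x.2 hx3 (ih x.2 hx1)
        have h3 : ∀ᶠ H : ℕ in atTop, 0 ≤ x.2 H := hx3.eventually (eventually_ge_atTop 0)
        refine MDL_Qcongr (MDL_Qadd (MDL_Qmul x.1 (MDL_Qint h2))
          (ihl (fun y hy => hl y (List.mem_cons_of_mem _ hy)))) ?_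
        filter_upwards [h3] with H h4
        rw [ev_cons]
        congr 2
        push_cast
        rw [← zpow_natCast, Int.toNat_of_nonneg h4]
    refine MDL_fin (MDL_Qcongr (MDL_Qadd (MDL_Qconst q) h1) ?_)
    filter_upwards [hH] with H h2
    exact h2.symm

end Pool.Agent.UnivT
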